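import Mathlib
import Pool.Agent.Helper29_CF.Stmt

/-!
Basic facts for the modules OPT5 and MAIN5 of the squad `cf`.
-/

namespace Pool.Agent.Helper29_CF.H21

open Finset Pool.Agent.Helper29_CF

variable {V B : Type} [DecidableEq V] [DecidableEq B]

/-- two components with a common point are equal -/
theorem comp_eq {s : B → Finset V} {F : Finset B} {R Q : Finset V} (hR : IsComp s F R)
    (hQ : IsComp s F Q) {x : V} (hx : x ∈ R) (hx' : x ∈ Q) : R = Q := by
  have hne : (R ∩ Q).Nonempty := ⟨x, mem_inter.2 ⟨hx, hx'⟩⟩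
  have hcl : Closed s F (R ∩ Q) := by
    intro b hb
    rcases hR.2.1 b hb with h1 | h1
    · rcases hQ.2.1 b hb with h2 | h2
      · exact Or.inl (subset_inter h1 h2)
      · exact Or.inr (h2.mono_right inter_subset_right)
    · exact Or.inr (h1.mono_right inter_subset_left)
  have e1 := hR.2.2 _ inter_subset_left hne hcl
  have e2 := hQ.2.2 _ inter_subset_right hne hcl
  rw [← e1, ← e2]
  simp [inter_comm]

/-- double counting of incidences -/
theorem dc (s : B → Finset V) (G : Finset B) (X : Finset V) :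
    ∑ x ∈ X, deg s G x = ∑ b ∈ G, (s b ∩ X).card := by
  have h1 : ∀ x ∈ X, deg s G x = ∑ b ∈ G, if x ∈ s b then 1 else 0 := by
    intro x _
    rw [deg, card_filter]
  rw [sum_congr rfl h1, sum_comm]
  refine sum_congr rfl fun b _ => ?_
  rw [← card_filter]
  congr 1
  ext x
  simp [and_comm]

/-- change of degrees in a swap -/
theorem degSwap (s : B → Finset V) {F : Finset B} {f g : B} (hf : f ∈ F) (hg : g ∉ F) (x : V) :
    deg s (insert g (F.erase f)) x + (if x ∈ s f then 1 else 0) =
      deg s F x + (if x ∈ s g then 1 else 0) := by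
  have hgf : g ∉ F.erase f := fun h => hg (mem_of_mem_erase h)
  have h1 : deg s F x = deg s (F.erase f) x + (if x ∈ s f then 1 else 0) := by
    unfold deg
    conv_lhs => rw [← insert_erase hf]
    rw [filter_insert]
    split_ifs with h
    · rw [card_insert_of_notMem (by simp)]
    · simp
  have h2 : deg s (insert g (F.erase f)) x =
      deg s (F.erase f) x + (if x ∈ s g then 1 else 0) := by
    unfold deg
    rw [filter_insert]
    split_ifs with h
    · rw [card_insert_of_notMem (fun h' => hgf (mem_filter.1 h').1)]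
    · simp
  rw [h1, h2]
  ring

/-- the degree in the blocks inside a closed set -/
theorem deg_inside {s : B → Finset V} {F : Finset B} {Q : Finset V} (hQ : Closed s F Q) {x : V}
    (hx : x ∈ Q) : deg s (inside s F Q) x = deg s F x := by
  unfold deg inside
  congr 1
  ext b
  simp only [mem_filter]
  constructor
  · rintro ⟨⟨h1, _⟩, h2⟩
    exact ⟨h1, h2⟩
  · rintro ⟨h1, h2⟩
    refine ⟨⟨h1, ?_⟩, h2⟩
    rcases hQ b h1 with h | h
    · exact h
    · exact absurd hx (disjoint_left.1 h h2)

theorem mem_inside_of {s : B → Finset V} {F : Finset B} {Q : Finset V} (hQ : Closed s F Q) {x : V}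
    (hx : x ∈ Q) {b : B} (hb : b ∈ F) (hxb : x ∈ s b) : b ∈ inside s F Q := by
  refine mem_filter.2 ⟨hb, ?_⟩
  rcases hQ b hb with h | h
  · exact h
  · exact absurd hx (disjoint_left.1 h hxb)

theorem exists_of_deg {s : B → Finset V} {F : Finset B} {x : V} (h : 1 ≤ deg s F x) :
    ∃ b ∈ F, x ∈ s b := by
  obtain ⟨b, hb⟩ := card_pos.1 h
  exact ⟨b, (mem_filter.1 hb).1, (mem_filter.1 hb).2⟩

theorem uniq_of_deg {s : B → Finset V} {F : Finset B} {x : V} (h : deg s F x = 1) {b b' : B}
    (hb : b ∈ F) (hx : x ∈ s b) (hb' : b' ∈ F) (hx' : x ∈ s b') : b = b' := by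
  obtain ⟨c, hc⟩ := card_eq_one.1 h
  have h1 : b ∈ ({c} : Finset B) := hc ▸ mem_filter.2 ⟨hb, hx⟩
  have h2 : b' ∈ ({c} : Finset B) := hc ▸ mem_filter.2 ⟨hb', hx'⟩
  rw [mem_singleton] at h1 h2
  rw [h1, h2]

end Pool.Agent.Helper29_CF.H21
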