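import Pool.Agent.Helper21_CF.Opt5

/-!
Module MAIN5 of the squad `cf`.
-/

namespace Pool.Agent.Helper29_CF.H21

open Finset Pool.Agent.Helper29_CF

section A

variable {V B : Type} [Fintype V] [DecidableEq V] [Fintype B] [DecidableEq B]

theorem mem_eos {s : B → Finset V} {F : Finset B} {Q : Finset V} : Q ∈ eos s F ↔ EO s F Q := by
  simp [eos]

/-- a block of `F` meeting a token is inside -/
theorem sub_of_meet {s : B → Finset V} {F : Finset B} {Q : Finset V} (hQ : EO s F Q) {g : B}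
    (hg : g ∈ F) (h : (s g ∩ Q).Nonempty) : s g ⊆ Q := by
  obtain ⟨x, hx⟩ := h
  have hx' := mem_inter.1 hx
  exact (mem_filter.1 (mem_inside_of hQ.1.2.1 hx'.2 hg hx'.1)).2

/-- from `CanF` to `CanC` in the case of degrees at most three -/
theorem canC_of {s : B → Finset V} {F : Finset B} {Q : Finset V} (hF : Good s univ 3 F) {g : B}
    (hg : g ∉ F) (h : CanF s F Q g) : CanC s univ 6 Q g := by
  intro κ
  obtain ⟨L, hL, hLQ, c, hc, hy⟩ := h κ
  refine ⟨L, subset_univ _, hLQ, fun h' => hg (hL h'), c, hc, fun y hyQ => ?_⟩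
  rcases hy y hyQ with h1 | h1
  · exact Or.inl h1
  · exfalso
    have h2 : deg s (insert g L) y ≤ deg s F y + 1 := by
      have h4 : (insert g L).filter (fun b => y ∈ s b) ⊆
          insert g (F.filter (fun b => y ∈ s b)) := by
        intro b hb
        have hb' := mem_filter.1 hb
        rcases mem_insert.1 hb'.1 with rfl | h5
        · exact mem_insert_self _ _
        · exact mem_insert_of_mem (mem_filter.2 ⟨hL h5, hb'.2⟩)
      exact (card_le_card h4).trans (card_insert_le _ _)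
    have h6 := (hF.adm.2 y).2
    omega

theorem cdeg_congr {s : B → Finset V} {C C' : Finset B} (c : B → Bool) {x : V}
    (h : ∀ b, x ∈ s b → (b ∈ C ↔ b ∈ C')) (κ : Bool) : cdeg s C c κ x = cdeg s C' c κ x := by
  unfold cdeg
  congr 1
  ext b
  simp only [mem_filter]
  constructor
  · rintro ⟨h1, h2, h4⟩
    exact ⟨(h b h2).1 h1, h2, h4⟩
  · rintro ⟨h1, h2, h4⟩
    exact ⟨(h b h2).2 h1, h2, h4⟩

/-- the selection statement with the additional hypothesis that `T` is nonempty -/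
def Sel5 : Prop :=
  ∀ {V B J : Type} [Fintype V] [DecidableEq V] [Fintype B] [DecidableEq B] [DecidableEq J]
    (s : B → Finset V) (G : Finset B) (S : Finset V) (T : Finset J)
    (inc : J → Finset (V × B)), (∀ g, (s g).card ≤ 3) → (∀ w ∈ S, deg s G w ≤ 2) →
    (∀ t ∈ T, ∀ z ∈ inc t, z.2 ∈ G ∧ z.1 ∈ s z.2 ∧ z.1 ∉ S ∧ (s z.2 ∩ S).Nonempty) →
    (∀ t ∈ T, ∀ t' ∈ T, ∀ z ∈ inc t, ∀ z' ∈ inc t', z.1 = z'.1 → t = t') →
    (∀ t ∈ T, 8 ≤ (inc t).card) → T.Nonempty →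
    ∃ σ : J → V × B, (∀ t ∈ T, σ t ∈ inc t) ∧
      ∀ t ∈ T, ∀ t' ∈ T, ∀ w ∈ S, w ∈ s (σ t).2 → w ∈ s (σ t').2 → (σ t).2 = (σ t').2

theorem main5 (hRnd : RndStmt) (hOpt : Opt5Stmt) (hTok : TokStmt) (hGood : GoodExStmt)
    (hCol : ColStmt) (hT : CompTStmt) (hH : CompHStmt) (hW : CompWStmt) (hSel : Sel5)
    (hAbs : AbsStmt) : Main5Stmt := by
  classical
  intro V B _ _ _ _ s h3 h5
  by_cases hV : Nonempty V
  swap
  · exact ⟨∅, fun _ => true, fun x => absurd ⟨x⟩ hV⟩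
  obtain ⟨x0⟩ := hV
  obtain ⟨b0, _⟩ : (univ.filter (fun b => x0 ∈ s b)).Nonempty := by
    refine card_pos.1 ?_
    have h := h5 x0
    unfold deg at h
    omega
  obtain ⟨K0, hK0⟩ := hRnd s 5 2 h3 h5 (by norm_num) (by norm_num)
  have hAdm : Adm s univ 3 K0 :=
    ⟨subset_univ _, fun x => ⟨by have := (hK0 x).1; omega, (hK0 x).2⟩⟩
  obtain ⟨F, hF, hCert⟩ := hTok s univ 3 (sys5 h3)
    (fun F Q Z hF hQ hZ => hOpt s h3 h5 F Q Z hF hQ hZ) ⟨K0, hAdm⟩
  have hpriv := (hGood s univ 3 (sys5 h3)).2 F hF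
  have hne3 : ∀ b ∈ F, (s b).Nonempty ∧ (s b).card ≤ 3 := fun b _ =>
    ⟨card_pos.1 (by rw [h3]; norm_num), (h3 b).le⟩
  set S : Finset V := univ.filter (fun x => deg s F x = 3) with hS
  have hmemS : ∀ x, x ∈ S ↔ deg s F x = 3 := fun x => by simp [hS]
  have hQS : ∀ Q, EO s F Q → ∀ x ∈ Q, x ∉ S := by
    intro Q hQ x hx hxS
    rw [hmemS] at hxS
    rcases deg12 hF hQ hx with h | h <;> omega
  have hout : ∀ Q, EO s F Q → ∀ g : B, (s g ∩ Q).Nonempty → ¬ s g ⊆ Q → g ∉ F :=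
    fun Q hQ g h1 h2 h4 => h2 (sub_of_meet hQ h4 h1)
  have hd2 : ∀ Q, EO s F Q → ∀ y ∈ Q, deg s F y ≤ 2 := by
    intro Q hQ y hy
    rcases deg12 hF hQ hy with h | h <;> omega
  -- own blocks which do not touch `S`
  let good1 : Finset V → B → Prop := fun Q g =>
    g ∉ F ∧ (s g ∩ Q).Nonempty ∧ (s g \ (Q ∪ S)).card ≤ 1 ∧ Disjoint (s g) S ∧ CanF s F Q g
  have hgood1 : ∀ Q, EO s F Q → (PCert s univ F Q ∨ HCert s univ 3 F Q) → ∃ g, good1 Q g := by
    rintro Q hQ (⟨f, hf, hfQ, g, _, hg, hgf⟩ | ⟨f, hf, hfQ, g, _, p, hp, hgp, hp3⟩)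
    · refine ⟨g, hg, ?_, ?_, ?_, hH s F Q f g hne3 hQ hf hfQ hg (Or.inl hgf)⟩
      · rw [hgf, inter_eq_left.2 hfQ]
        exact (hne3 f hf).1
      · rw [hgf, sdiff_eq_empty_iff_subset.2 (hfQ.trans subset_union_left)]
        simp
      · rw [hgf]
        exact disjoint_left.2 fun x hx => hQS Q hQ x (hfQ hx)
    · have hnQ : nodes s F (s f) ⊆ Q := (filter_subset _ _).trans hfQ
      have h2 := hQ.2.2.1 f hf hfQ
      obtain ⟨y, hy⟩ : (nodes s F (s f)).Nonempty := card_pos.1 (by omega)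
      have hyg : y ∈ s g ∩ Q := mem_inter.2 ⟨by rw [hgp]; exact mem_insert_of_mem hy, hnQ hy⟩
      have hg : g ∉ F := hout Q hQ g ⟨y, hyg⟩
        (fun h => hp (h (by rw [hgp]; exact mem_insert_self _ _)))
      refine ⟨g, hg, ⟨y, hyg⟩, ?_, ?_, hH s F Q f g hne3 hQ hf hfQ hg (Or.inr ⟨p, hp, hgp⟩)⟩
      · have : s g \ (Q ∪ S) ⊆ {p} := by
          intro x hx
          have hx' := mem_sdiff.1 hx
          rw [hgp] at hx'
          rcases mem_insert.1 hx'.1 with h | h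
          · exact mem_singleton.2 h
          · exact absurd (mem_union_left _ (hnQ h)) hx'.2
        exact (card_le_card this).trans (by simp)
      · rw [hgp, disjoint_left]
        intro x hx hxS
        rcases mem_insert.1 hx with h | h
        · rw [h, hmemS] at hxS
          exact hp3 rfl hxS
        · exact hQS Q hQ x (hnQ h) hxS
  -- the selection for the other tokens
  let T2 : Finset (Finset V) := (eos s F).filter (fun Q => ¬ ∃ g, good1 Q g)
  let inc : Finset V → Finset (V × B) := fun Q =>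
    ((Q.filter (fun x => deg s F x = 1)) ×ˢ univ).filter
      (fun z => z.1 ∈ s z.2 ∧ ∃ w ∈ s z.2, deg s F w = 3)
  have hinc : ∀ Q, EO s F Q → ∀ z ∈ inc Q, z.1 ∈ Q ∧ deg s F z.1 = 1 ∧ z.1 ∈ s z.2 ∧ z.2 ∉ F ∧
      ∃ w ∈ s z.2, w ∈ S := by
    intro Q hQ z hz
    have hz' := mem_filter.1 hz
    have hz1 := mem_filter.1 (mem_product.1 hz'.1).1
    obtain ⟨hxz, w, hw, hw3⟩ := hz'.2
    have hwS : w ∈ S := (hmemS w).2 hw3
    refine ⟨hz1.1, hz1.2, hxz, ?_, w, hw, hwS⟩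
    exact hout Q hQ z.2 ⟨z.1, mem_inter.2 ⟨hxz, hz1.1⟩⟩ (fun h => hQS Q hQ w (h hw) hwS)
  have hselT : T2.Nonempty → ∃ σ : Finset V → V × B, (∀ t ∈ T2, σ t ∈ inc t) ∧
      ∀ t ∈ T2, ∀ t' ∈ T2, ∀ w ∈ S, w ∈ s (σ t).2 → w ∈ s (σ t').2 →
        (σ t).2 = (σ t').2 := hSel s (univ \ F) S T2 inc (fun g => (h3 g).le)
    (by
      intro w hw
      rw [hmemS] at hw
      have h1 : deg s univ w = deg s F w + deg s (univ \ F) w := by
        unfold deg
        rw [← card_union_of_disjoint]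
        · congr 1
          ext b
          simp only [mem_filter, mem_univ, true_and, mem_union, mem_sdiff]
          tauto
        · refine disjoint_left.2 fun b hb hb' => ?_
          exact (mem_sdiff.1 (mem_filter.1 hb').1).2 (mem_filter.1 hb).1
      have := h5 w
      omega)
    (by
      intro Q hQ z hz
      have hQ' := mem_eos.1 (mem_filter.1 hQ).1
      obtain ⟨h1, _, h4, h6, w, hw, hwS⟩ := hinc Q hQ' z hz
      exact ⟨mem_sdiff.2 ⟨mem_univ _, h6⟩, h4, hQS Q hQ' z.1 h1, w, mem_inter.2 ⟨hw, hwS⟩⟩)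
    (by
      intro Q hQ Q' hQ' z hz z' hz' hzz
      have h1 := mem_eos.1 (mem_filter.1 hQ).1
      have h2 := mem_eos.1 (mem_filter.1 hQ').1
      exact comp_eq h1.1 h2.1 (hinc Q h1 z hz).1 (hzz ▸ (hinc Q' h2 z' hz').1))
    (by
      intro Q hQ
      have hQ1 := mem_filter.1 hQ
      have hQ' := mem_eos.1 hQ1.1
      rcases hCert Q hQ' with h | h | ⟨_, h⟩
      · exact absurd (hgood1 Q hQ' (Or.inl h)) hQ1.2
      · exact absurd (hgood1 Q hQ' (Or.inr h)) hQ1.2
      · exact h)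
  obtain ⟨σ, hσ1, hσ2⟩ : ∃ σ : Finset V → V × B, (∀ t ∈ T2, σ t ∈ inc t) ∧
      ∀ t ∈ T2, ∀ t' ∈ T2, ∀ w ∈ S, w ∈ s (σ t).2 → w ∈ s (σ t').2 →
        (σ t).2 = (σ t').2 := by
    rcases T2.eq_empty_or_nonempty with h | h
    · refine ⟨fun _ => (x0, b0), fun t ht => ?_, fun t ht => ?_⟩
      · rw [h] at ht
        exact absurd ht (notMem_empty _)
      · rw [h] at ht
        exact absurd ht (notMem_empty _)
    · exact hselT h
  let own : Finset V → B := fun Q => if h : ∃ g, good1 Q g then h.choose else (σ Q).2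
  have hown1 : ∀ Q, (∃ g, good1 Q g) → good1 Q (own Q) := by
    intro Q h
    simp only [own, dif_pos h]
    exact h.choose_spec
  have hown2 : ∀ Q, (¬ ∃ g, good1 Q g) → own Q = (σ Q).2 := by
    intro Q h
    simp only [own, dif_neg h]
  have hT2 : ∀ Q, EO s F Q → (¬ ∃ g, good1 Q g) → Q ∈ T2 := fun Q hQ h =>
    mem_filter.2 ⟨mem_eos.2 hQ, h⟩
  -- the part outside of the tokens
  set T := eos s F with hTdef
  have hTdis : ∀ Q ∈ T, ∀ Q' ∈ T, Q ≠ Q' → Disjoint Q Q' := by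
    intro Q hQ Q' hQ' hne
    refine disjoint_left.2 fun x hx hx' => hne ?_
    exact comp_eq (mem_eos.1 hQ).1 (mem_eos.1 hQ').1 hx hx'
  set N : Finset V := univ.filter (fun x => ∀ Q ∈ T, x ∉ Q) with hN
  have hNcl : Closed s F N := by
    intro b hb
    by_cases h : ∃ Q ∈ T, (s b ∩ Q).Nonempty
    · obtain ⟨Q, hQ, h1⟩ := h
      have h2 := sub_of_meet (mem_eos.1 hQ) hb h1
      exact Or.inr (disjoint_left.2 fun x hx hxN => (mem_filter.1 hxN).2 Q hQ (h2 hx))
    · push Not at h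
      refine Or.inl fun x hx => mem_filter.2 ⟨mem_univ _, fun Q hQ hxQ => ?_⟩
      have := h Q hQ
      have hx2 : x ∈ s b ∩ Q := mem_inter.2 ⟨hx, hxQ⟩
      simp [this] at hx2
  obtain ⟨c0, hc0⟩ := hCol s F N (fun b hb => (hne3 b hb).1) hNcl
    (by
      intro b hb _
      obtain ⟨p, hp, hp1⟩ := hpriv b hb
      have h1 : nodes s F (s b) ⊆ (s b).erase p := by
        intro y hy
        have := mem_filter.1 hy
        refine mem_erase.2 ⟨?_, this.1⟩
        rintro rfl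
        have := this.2
        omega
      have := card_le_card h1
      rw [card_erase_of_mem hp, h3] at this
      exact this)
    (by
      intro W hWN hW'
      obtain ⟨x, hx⟩ := hW'.1.1
      exact (mem_filter.1 (hWN hx)).2 W (mem_eos.2 hW') hx)
  set C0 : Finset B := F.filter (fun b => ∀ Q ∈ T, Disjoint (s b) Q) with hC0
  have hC0F : ∀ x, (∀ Q ∈ T, x ∉ Q) → ∀ b, x ∈ s b → (b ∈ F ↔ b ∈ C0) := by
    intro x hx b hxb
    constructor
    · intro hb
      refine mem_filter.2 ⟨hb, fun Q hQ => ?_⟩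
      by_contra hcon
      have h1 : (s b ∩ Q).Nonempty := not_disjoint_iff_nonempty_inter.1 hcon
      exact hx Q hQ (sub_of_meet (mem_eos.1 hQ) hb h1 hxb)
    · intro hb
      exact (mem_filter.1 hb).1
  have hcert2 : ∀ Q, EO s F Q → (¬ ∃ g, good1 Q g) → (σ Q).2 ∉ F ∧ (σ Q).1 ∈ Q ∧
      deg s F (σ Q).1 = 1 ∧ (σ Q).1 ∈ s (σ Q).2 ∧ ∃ w ∈ s (σ Q).2, w ∈ S := by
    intro Q hQ h
    obtain ⟨h1, h2, h4, h6, h7⟩ := hinc Q hQ _ (hσ1 Q (hT2 Q hQ h))
    exact ⟨h6, h1, h2, h4, h7⟩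
  obtain ⟨C, _, c, hC1, hC2⟩ := hAbs s univ C0 c0 6 T S own
    (fun b _ => card_pos.1 (by rw [h3]; norm_num))
    (fun x => by rw [h5]; norm_num) (subset_univ _) hTdis
    (fun Q hQ => disjoint_left.2 (hQS Q (mem_eos.1 hQ)))
    (fun Q hQ b hb => (mem_filter.1 hb).2 Q hQ)
    (by
      intro x hx
      left
      have hxN : x ∈ N := mem_filter.2 ⟨mem_univ _, hx⟩
      obtain ⟨κ, hκ⟩ := hc0 x hxN (hF.adm.2 x).1 ((hF.adm.2 x).2.trans (by norm_num))
      exact ⟨κ, by rw [← cdeg_congr c0 (hC0F x hx) κ]; exact hκ⟩)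
    (by
      intro Q hQ
      have hQ' := mem_eos.1 hQ
      refine ⟨mem_univ _, ?_⟩
      by_cases h : ∃ g, good1 Q g
      · obtain ⟨_, h2, h4, _, _⟩ := hown1 Q h
        exact ⟨h2, h4⟩
      · rw [hown2 Q h]
        obtain ⟨_, h1, _, h4, w, hw, hwS⟩ := hcert2 Q hQ' h
        refine ⟨⟨_, mem_inter.2 ⟨h4, h1⟩⟩, ?_⟩
        have hne : (σ Q).1 ≠ w := fun e => hQS Q hQ' _ h1 (e ▸ hwS)
        have h6 : s (σ Q).2 \ (Q ∪ S) ⊆ ((s (σ Q).2).erase (σ Q).1).erase w := by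
          intro x hx
          have hx' := mem_sdiff.1 hx
          refine mem_erase.2 ⟨?_, mem_erase.2 ⟨?_, hx'.1⟩⟩
          · rintro rfl
            exact hx'.2 (mem_union_right _ hwS)
          · rintro rfl
            exact hx'.2 (mem_union_left _ h1)
        refine (card_le_card h6).trans ?_
        rw [card_erase_of_mem (mem_erase.2 ⟨hne.symm, hw⟩), card_erase_of_mem h4, h3])
    (by
      intro Q hQ Q' hQ' w hw hwQ hwQ'
      by_cases h : ∃ g, good1 Q g
      · exact absurd hw (disjoint_left.1 (hown1 Q h).2.2.2.1 hwQ)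
      · by_cases h' : ∃ g, good1 Q' g
        · exact absurd hw (disjoint_left.1 (hown1 Q' h').2.2.2.1 hwQ')
        · rw [hown2 Q h] at hwQ ⊢
          rw [hown2 Q' h'] at hwQ' ⊢
          exact hσ2 Q (hT2 Q (mem_eos.1 hQ) h) Q' (hT2 Q' (mem_eos.1 hQ') h') w hw hwQ hwQ')
    (by
      intro Q hQ
      have hQ' := mem_eos.1 hQ
      by_cases h : ∃ g, good1 Q g
      · obtain ⟨h1, _, _, _, h6⟩ := hown1 Q h
        exact canC_of hF h1 h6
      · rw [hown2 Q h]
        obtain ⟨h0, h1, h2, h4, w, hw, hwS⟩ := hcert2 Q hQ' h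
        refine canC_of hF h0 ?_
        have hwQ : w ∉ Q := fun h' => hQS Q hQ' w h' hwS
        have h7 : (s (σ Q).2 ∩ Q).card ≤ 2 := by
          have : s (σ Q).2 ∩ Q ⊆ (s (σ Q).2).erase w := by
            intro x hx
            have hx' := mem_inter.1 hx
            exact mem_erase.2 ⟨fun e => hwQ (e ▸ hx'.2), hx'.1⟩
          have := card_le_card this
          rw [card_erase_of_mem hw, h3] at this
          exact this
        have h8 : 0 < (s (σ Q).2 ∩ Q).card := card_pos.2 ⟨_, mem_inter.2 ⟨h4, h1⟩⟩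
        rcases (show (s (σ Q).2 ∩ Q).card = 1 ∨ (s (σ Q).2 ∩ Q).card = 2 by omega) with h9 | h9
        · exact hT s F Q _ hne3 hQ' h0 h9
        · exact hW s F Q _ (σ Q).1 hne3 hQ' (hd2 Q hQ') h0 h4 h1 h2 h9)
    (by
      intro Q hQ g _ hg
      have hQ' := mem_eos.1 hQ
      have hgF : g ∉ F := by
        refine hout Q hQ' g (card_pos.1 (by omega)) fun h => ?_
        rw [inter_eq_left.2 h, h3] at hg
        omega
      exact canC_of hF hgF (hT s F Q g hne3 hQ' hgF hg))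
  refine ⟨C, c, fun x => ?_⟩
  have hle : deg s C x ≤ 5 := by
    rw [← h5 x]
    exact card_le_card (filter_subset_filter _ (subset_univ _))
  by_cases hx : x ∈ S
  · rcases hC2 x hx with h | h | h
    · exact Or.inl h
    · omega
    · right
      have hxT : ∀ Q ∈ T, x ∉ Q := fun Q hQ hxQ => hQS Q (mem_eos.1 hQ) x hxQ hx
      have h1 : deg s C0 x = deg s F x := by
        unfold deg
        congr 1
        ext b
        simp only [mem_filter (p := fun b => x ∈ s b)]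
        constructor
        · rintro ⟨h1, h2⟩
          exact ⟨(hC0F x hxT b h2).2 h1, h2⟩
        · rintro ⟨h1, h2⟩
          exact ⟨(hC0F x hxT b h2).1 h1, h2⟩
      rw [h, h1, (hmemS x).1 hx]
  · rcases hC1 x hx with h | h
    · exact Or.inl h
    · omega

end A

end Pool.Agent.Helper29_CF.H21
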