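import Pool.Agent.Helper21_CF.Basic

/-!
Module OPT5 of the squad `cf`.
-/

namespace Pool.Agent.Helper29_CF.H21

open Finset Pool.Agent.Helper29_CF

section A

variable {V B : Type} [Fintype V] [DecidableEq V] [Fintype B] [DecidableEq B]

theorem sys5 {s : B → Finset V} (h3 : ∀ b, (s b).card = 3) : Sys s univ 3 where
  ne b _ := card_pos.1 (by rw [h3]; norm_num)
  le3 b _ := (h3 b).le
  cap5 := by norm_num
  hcap := Or.inl rfl

theorem deg12 {s : B → Finset V} {F : Finset B} {Q : Finset V} (hF : Good s univ 3 F)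
    (hQ : EO s F Q) {x : V} (hx : x ∈ Q) : deg s F x = 1 ∨ deg s F x = 2 := by
  have h1 := (hF.adm.2 x).2
  rcases hQ.2.1 x hx with h | h | h
  · exact Or.inl h
  · exact Or.inr h
  · omega

theorem node_of_ne {s : B → Finset V} {F : Finset B} {Q : Finset V}
    (h3 : ∀ b, (s b).card = 3) (hQ : EO s F Q) {f : B} (hf : f ∈ F) (hfQ : s f ⊆ Q) {p : V}
    (hp : p ∈ s f) (hp1 : deg s F p = 1) {x : V} (hx : x ∈ s f) (hxp : x ≠ p) :
    2 ≤ deg s F x := by
  have h1 := hQ.2.2.1 f hf hfQ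
  have h2 : nodes s F (s f) ⊆ (s f).erase p := by
    intro y hy
    have := mem_filter.1 hy
    refine mem_erase.2 ⟨?_, this.1⟩
    rintro rfl
    have := this.2
    omega
  have h4 : nodes s F (s f) = (s f).erase p :=
    eq_of_subset_of_card_le h2 (by rw [card_erase_of_mem hp, h3, h1])
  have : x ∈ nodes s F (s f) := h4 ▸ mem_erase.2 ⟨hxp, hx⟩
  exact (mem_filter.1 this).2

theorem exists_private {s : B → Finset V} {F : Finset B} {Q : Finset V}
    (h3 : ∀ b, (s b).card = 3) (hF : Good s univ 3 F) (hQ : EO s F Q) {f : B} (hf : f ∈ F)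
    (hfQ : s f ⊆ Q) : ∃ p ∈ s f, deg s F p = 1 := by
  by_contra hcon
  push Not at hcon
  have h1 := hQ.2.2.1 f hf hfQ
  have h2 : nodes s F (s f) = s f := by
    refine filter_true_of_mem fun x hx => ?_
    have := hcon x hx
    rcases deg12 hF hQ (hfQ hx) with h | h <;> omega
  rw [h2, h3] at h1
  omega

theorem swapAdm {s : B → Finset V} {F : Finset B} {Q : Finset V} (h3 : ∀ b, (s b).card = 3)
    (hF : Good s univ 3 F) (hQ : EO s F Q) {f : B} (hf : f ∈ F) (hfQ : s f ⊆ Q) {p : V}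
    (hp : p ∈ s f) (hp1 : deg s F p = 1) {g : B} (hg : g ∉ F) (hpg : p ∈ s g)
    (hw : ∀ w ∈ s g, deg s F w ≠ 3) : Adm s univ 3 (insert g (F.erase f)) := by
  refine ⟨subset_univ _, fun x => ?_⟩
  have h1 := degSwap s hf hg x
  have h2 := hF.adm.2 x
  by_cases hxg : x ∈ s g
  · have h4 := hw x hxg
    simp only [hxg, if_true] at h1
    split_ifs at h1 <;> omega
  · simp only [hxg, if_false] at h1
    split_ifs at h1 with hxf
    · have h5 : x ≠ p := fun h => hxg (h ▸ hpg)
      have h6 := node_of_ne h3 hQ hf hfQ hp hp1 hxf h5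
      omega
    · omega

theorem exch5 (hE : ExchStmt) {s : B → Finset V} {F : Finset B} {Q : Finset V}
    (h3 : ∀ b, (s b).card = 3)
    (hF : Good s univ 3 F) (hQ : EO s F Q) {f : B} (hf : f ∈ F) (hfQ : s f ⊆ Q) {p : V}
    (hp : p ∈ s f) (hp1 : deg s F p = 1) {g : B} (hg : g ∉ F) (hpg : p ∈ s g)
    (hw : ∀ w ∈ s g, deg s F w ≠ 3) :
    (∃ u v R, MCase s univ 3 F Q f p g u v R) ∨
      (s g ⊆ Q ∧ Good s univ 3 (insert g (F.erase f)) ∧
        (∀ W, EO s (insert g (F.erase f)) W ↔ EO s F W) ∧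
        (s g = s f ∨ Pasch s (insert g (inside s F Q)))) := by
  rcases hE s univ 3 F Q f p g (sys5 h3) hF hQ hf hfQ hp hp1 (mem_univ _) hg hpg
    (swapAdm h3 hF hQ hf hfQ hp hp1 hg hpg hw) with h | ⟨h1, _, h2, h4, h5⟩
  · exact Or.inl h
  · refine Or.inr ⟨h1, h2, h4, ?_⟩
    rcases h5 with h | h | ⟨a, ha, _, h4', _⟩
    · exact Or.inl h
    · exact Or.inr h
    · rcases deg12 hF hQ (hfQ ha) with h | h <;> omega

/-- the number of private points of a token is at least three (and equals the number of blocks) -/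
theorem card_private {s : B → Finset V} {F : Finset B} {Q : Finset V}
    (h3 : ∀ b, (s b).card = 3) (hF : Good s univ 3 F) (hQ : EO s F Q) :
    3 ≤ (Q.filter (fun x => deg s F x = 1)).card ∧
      (inside s F Q).card = (Q.filter (fun x => deg s F x = 1)).card := by
  have hcl := hQ.1.2.1
  have e1 : ∑ x ∈ Q, deg s (inside s F Q) x = 3 * (inside s F Q).card := by
    rw [dc, sum_congr rfl (g := fun _ => 3), sum_const, smul_eq_mul, mul_comm]
    intro b hb
    rw [inter_eq_left.2 (mem_filter.1 hb).2, h3]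
  have e2 : ∑ x ∈ Q, deg s (inside s F Q) x =
      (Q.filter (fun x => deg s F x = 1)).card + 2 * (nodes s F Q).card := by
    rw [← sum_filter_add_sum_filter_not Q (fun x => deg s F x = 1)]
    congr 1
    · rw [sum_congr rfl (g := fun _ => 1), sum_const, smul_eq_mul, mul_one]
      intro x hx
      have := mem_filter.1 hx
      rw [deg_inside hcl this.1, this.2]
    · have e3 : Q.filter (fun x => ¬ deg s F x = 1) = nodes s F Q := by
        refine filter_congr fun x hx => ?_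
        rcases deg12 hF hQ hx with h | h <;> omega
      rw [e3, sum_congr rfl (g := fun _ => 2), sum_const, smul_eq_mul, mul_comm]
      intro x hx
      have := mem_filter.1 hx
      rw [deg_inside hcl this.1]
      rcases deg12 hF hQ this.1 with h | h
      · omega
      · exact h
  have e4 : ∑ x ∈ nodes s F Q, deg s (inside s F Q) x = 2 * (nodes s F Q).card := by
    rw [sum_congr rfl (g := fun _ => 2), sum_const, smul_eq_mul, mul_comm]
    intro x hx
    have := mem_filter.1 hx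
    rw [deg_inside hcl this.1]
    rcases deg12 hF hQ this.1 with h | h
    · omega
    · exact h
  have e5 : ∑ x ∈ nodes s F Q, deg s (inside s F Q) x = 2 * (inside s F Q).card := by
    rw [dc, sum_congr rfl (g := fun _ => 2), sum_const, smul_eq_mul, mul_comm]
    intro b hb
    have hb' := mem_filter.1 hb
    rw [← hQ.2.2.1 b hb'.1 hb'.2]
    congr 1
    ext x
    simp only [nodes, mem_inter, mem_filter]
    constructor
    · rintro ⟨h1, _, h2⟩
      exact ⟨h1, h2⟩
    · rintro ⟨h1, h2⟩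
      exact ⟨h1, hb'.2 h1, h2⟩
  obtain ⟨x, hx⟩ := hQ.1.1
  obtain ⟨b, hb, hxb⟩ := exists_of_deg (hF.adm.2 x).1
  have hbQ := mem_inside_of hcl hx hb hxb
  have hpos : 0 < (inside s F Q).card := card_pos.2 ⟨b, hbQ⟩
  have h2 : 2 ≤ (nodes s F Q).card := by
    have hb' := mem_filter.1 hbQ
    rw [← hQ.2.2.1 b hb'.1 hb'.2]
    exact card_le_card (filter_subset_filter _ hb'.2)
  have hodd := hQ.2.2.2
  obtain ⟨k, hk⟩ := hodd
  omega

theorem SameOff.trans' {s : B → Finset V} {F F' F'' : Finset B} {Q : Finset V}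
    (h : SameOff s F F' Q) (h' : SameOff s F' F'' Q) : SameOff s F F'' Q :=
  fun b hb => (h b hb).trans (h' b hb)

/-- structure of a token which is a Pasch minus a line -/
theorem pasch_line {s : B → Finset V} {F : Finset B} {Q : Finset V} (hF : Good s univ 3 F)
    (hQ : EO s F Q) {g : B} (hg : g ∉ F) (hP : Pasch s (insert g (inside s F Q))) (x : V) :
    x ∈ s g ↔ x ∈ Q ∧ deg s F x = 1 := by
  have hgi : g ∉ inside s F Q := fun h => hg (mem_filter.1 h).1
  have hdeg : deg s (insert g (inside s F Q)) x =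
      deg s (inside s F Q) x + (if x ∈ s g then 1 else 0) := by
    unfold deg
    rw [filter_insert]
    split_ifs with h
    · rw [card_insert_of_notMem (fun h' => hgi (mem_filter.1 h').1)]
    · simp
  have h02 := hP.2.2.2 x
  constructor
  · intro hx
    simp only [hx, if_true] at hdeg
    have h1 : deg s (inside s F Q) x = 1 := by omega
    obtain ⟨b, hb, hxb⟩ := exists_of_deg (le_of_eq h1.symm)
    have hxQ : x ∈ Q := (mem_filter.1 hb).2 hxb
    refine ⟨hxQ, ?_⟩
    rw [← deg_inside hQ.1.2.1 hxQ]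
    exact h1
  · rintro ⟨hxQ, h1⟩
    by_contra hx
    rw [deg_inside hQ.1.2.1 hxQ, h1, if_neg hx] at hdeg
    omega

/-- switching the missing line -/
theorem switch (hE : ExchStmt) {s : B → Finset V} {F : Finset B} {Q : Finset V}
    (h3 : ∀ b, (s b).card = 3) (hF : Good s univ 3 F) (hQ : EO s F Q) {g : B} (hg : g ∉ F)
    (hP : Pasch s (insert g (inside s F Q))) {e : B} (he : e ∈ F) (heQ : s e ⊆ Q) :
    Good s univ 3 (insert g (F.erase e)) ∧ EO s (insert g (F.erase e)) Q ∧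
      SameOff s F (insert g (F.erase e)) Q ∧ e ∉ insert g (F.erase e) ∧
      Pasch s (insert e (inside s (insert g (F.erase e)) Q)) := by
  obtain ⟨p, hp, hp1⟩ := exists_private h3 hF hQ he heQ
  have hsg := pasch_line hF hQ hg hP
  have hpg : p ∈ s g := (hsg p).2 ⟨heQ hp, hp1⟩
  have hgQ : s g ⊆ Q := fun x hx => ((hsg x).1 hx).1
  have hge : e ≠ g := fun h => hg (h ▸ he)
  rcases exch5 hE h3 hF hQ he heQ hp hp1 hg hpg
    (fun w hw => by rw [((hsg w).1 hw).2]; norm_num) with ⟨u, v, R, hM⟩ | ⟨_, h1, h2, _⟩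
  · obtain ⟨_, _, _, hguv, hR, hnR, hu, _, _, _⟩ := hM
    have hug : u ∈ s g := by rw [hguv]; simp
    exact absurd (comp_eq hR hQ.1 hu (hgQ hug) ▸ hQ) hnR
  · refine ⟨h1, (h2 Q).2 hQ, ?_, ?_, ?_⟩
    · intro b hb
      have hbe : b ≠ e := fun h => hb (h ▸ heQ)
      have hbg : b ≠ g := fun h => hb (h ▸ hgQ)
      simp [hbe, hbg]
    · simp [hge]
    · have : insert e (inside s (insert g (F.erase e)) Q) = insert g (inside s F Q) := by
        ext b
        simp only [mem_insert, inside, mem_filter, mem_erase]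
        constructor
        · rintro (rfl | ⟨rfl | ⟨h4, h5⟩, h6⟩)
          · exact Or.inr ⟨he, heQ⟩
          · exact Or.inl rfl
          · exact Or.inr ⟨h5, h6⟩
        · rintro (rfl | ⟨h5, h6⟩)
          · exact Or.inr ⟨Or.inl rfl, hgQ⟩
          · by_cases h : b = e
            · exact Or.inl h
            · exact Or.inr ⟨Or.inr ⟨h, h5⟩, h6⟩
      rw [this]
      exact hP

/-- a lower bound for the number of pairs in `WCert` -/
theorem wcert_of {s : B → Finset V} {F : Finset B} {Q : Finset V} (P0 : Finset V) (k : ℕ)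
    (hP0 : P0 ⊆ Q.filter (fun x => deg s F x = 1))
    (hk : ∀ x ∈ P0, k ≤ (univ.filter (fun b => x ∈ s b ∧ ∃ w ∈ s b, deg s F w = 3)).card)
    (h8 : 8 ≤ P0.card * k) : WCert s univ F Q := by
  classical
  unfold WCert
  refine h8.trans ?_
  have h1 : P0.card * k ≤ ∑ x ∈ P0,
      (univ.filter (fun b => x ∈ s b ∧ ∃ w ∈ s b, deg s F w = 3)).card := by
    rw [← smul_eq_mul, ← sum_const]
    exact sum_le_sum hk
  refine h1.trans ?_
  rw [← card_sigma]
  refine card_le_card_of_injOn (fun z => (z.1, z.2)) ?_ ?_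
  · intro z hz
    have hz' := mem_sigma.1 (mem_coe.1 hz)
    have hz2 := mem_filter.1 hz'.2
    exact mem_coe.2 (mem_filter.2 ⟨mem_product.2 ⟨hP0 hz'.1, mem_univ _⟩, hz2.2⟩)
  · rintro ⟨a, b⟩ _ ⟨a', b'⟩ _ h
    simp only [Prod.mk.injEq] at h
    obtain ⟨rfl, rfl⟩ := h
    rfl

/-- the blocks through a private point outside a set of blocks -/
theorem many {s : B → Finset V} {F : Finset B} (h5 : ∀ x, deg s univ x = 5) (x : V)
    (A : Finset B) (k : ℕ) (hA : deg s A x + k ≤ 5)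
    (hall : ∀ b, b ∉ A → x ∈ s b → ∃ w ∈ s b, deg s F w = 3) :
    k ≤ (univ.filter (fun b => x ∈ s b ∧ ∃ w ∈ s b, deg s F w = 3)).card := by
  have h1 : univ.filter (fun b => x ∈ s b) \ A.filter (fun b => x ∈ s b) ⊆
      univ.filter (fun b => x ∈ s b ∧ ∃ w ∈ s b, deg s F w = 3) := by
    intro b hb
    have hb' := mem_sdiff.1 hb
    have hx := (mem_filter.1 hb'.1).2
    have hbA : b ∉ A := fun h => hb'.2 (mem_filter.2 ⟨h, hx⟩)
    exact mem_filter.2 ⟨mem_univ _, hx, hall b hbA hx⟩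
  have h2 := card_le_card h1
  have h4 := le_card_sdiff (A.filter (fun b => x ∈ s b)) (univ.filter (fun b => x ∈ s b))
  have h6 : (univ.filter (fun b => x ∈ s b)).card = 5 := h5 x
  have h7 : (A.filter (fun b => x ∈ s b)).card + k ≤ 5 := hA
  omega

/-- the final case: the token is a Pasch minus a line and `Z` contains no private point -/
theorem caseB2 (hE : ExchStmt) {s : B → Finset V} {F : Finset B} {Q Z : Finset V}
    (h3 : ∀ b, (s b).card = 3) (h5 : ∀ x, deg s univ x = 5) (hF : Good s univ 3 F)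
    (hQ : EO s F Q) {g : B} (hg : g ∉ F) (hP : Pasch s (insert g (inside s F Q)))
    (hZ : ∀ x ∈ Q, deg s F x = 1 → x ∉ Z) : OptConcl s univ 3 F Q Z := by
  have hsg := pasch_line hF hQ hg hP
  have hgQ : s g ⊆ Q := fun x hx => ((hsg x).1 hx).1
  by_cases hall : ∀ x ∈ Q, deg s F x = 1 → ∀ h, h ∉ insert g (inside s F Q) → x ∈ s h →
      ∃ w ∈ s h, deg s F w = 3
  · refine ⟨F, fun _ _ => Iff.rfl, hF, hQ, Or.inr (Or.inl ⟨rfl, ?_⟩)⟩
    refine wcert_of (Q.filter (fun x => deg s F x = 1)) 3 (Subset.refl _) ?_ ?_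
    · intro x hx
      have hx' := mem_filter.1 hx
      refine many h5 x (insert g (inside s F Q)) 3 ?_ (hall x hx'.1 hx'.2)
      rcases hP.2.2.2 x with h | h <;> omega
    · have := (card_private h3 hF hQ).1
      omega
  · push Not at hall
    obtain ⟨x, hxQ, hx1, h, hh, hxh, hw⟩ := hall
    have hhg : h ≠ g := fun e => hh (e ▸ mem_insert_self _ _)
    have hhi : h ∉ inside s F Q := fun e => hh (mem_insert_of_mem e)
    have hhF : h ∉ F := fun e => hhi (mem_inside_of hQ.1.2.1 hxQ e hxh)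
    obtain ⟨f, hf, hxf⟩ := exists_of_deg (le_of_eq hx1.symm)
    have hfQ : s f ⊆ Q := (mem_filter.1 (mem_inside_of hQ.1.2.1 hxQ hf hxf)).2
    rcases exch5 hE h3 hF hQ hf hfQ hxf hx1 hhF hxh hw with ⟨u, v, R, hM⟩ | ⟨_, _, _, h4 | h4⟩
    · exact ⟨F, fun _ _ => Iff.rfl, hF, hQ, Or.inr (Or.inr
        ⟨f, hf, hfQ, x, hxf, hx1, hZ x hxQ hx1, h, mem_univ _, hhF, u, v, R, hM⟩)⟩
    · exact ⟨F, fun _ _ => Iff.rfl, hF, hQ, Or.inl ⟨f, hf, hfQ, h, mem_univ _, hhF, h4⟩⟩
    · have hsh := pasch_line hF hQ hhF h4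
      have heq : s h = s g := by
        ext y
        rw [hsh y, hsg y]
      obtain ⟨h6, h7, h8, h9, _⟩ := switch hE h3 hF hQ hg hP hf hfQ
      refine ⟨_, h8, h6, h7, Or.inl ⟨g, mem_insert_self _ _, hgQ, h, mem_univ _, ?_, heq⟩⟩
      intro h10
      rcases mem_insert.1 h10 with h10 | h10
      · exact hhg h10
      · exact hhF (mem_of_mem_erase h10)

/-- OPT5 -/
theorem opt5 (hE : ExchStmt) : Opt5Stmt := by
  intro V B _ _ _ _ s h3 h5 F Q Z hF hQ hZ
  have hcl := hQ.1.2.1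
  by_cases hall : ∀ x ∈ Q, deg s F x = 1 → x ∉ Z → ∀ h, h ∉ F → x ∈ s h →
      ∃ w ∈ s h, deg s F w = 3
  · -- all exits contain a point of degree three
    refine ⟨F, fun _ _ => Iff.rfl, hF, hQ, Or.inr (Or.inl ⟨rfl, ?_⟩)⟩
    refine wcert_of ((Q.filter (fun x => deg s F x = 1)) \ Z) 4 sdiff_subset ?_ ?_
    · intro x hx
      have hx' := mem_sdiff.1 hx
      have hx2 := mem_filter.1 hx'.1
      refine many h5 x F 4 ?_ (hall x hx2.1 hx2.2 hx'.2)
      omega
    · have h1 := (card_private h3 hF hQ).1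
      have h2 := le_card_sdiff Z (Q.filter (fun x => deg s F x = 1))
      omega
  · push Not at hall
    obtain ⟨x, hxQ, hx1, hxZ, h, hhF, hxh, hw⟩ := hall
    obtain ⟨f, hf, hxf⟩ := exists_of_deg (le_of_eq hx1.symm)
    have hfQ : s f ⊆ Q := (mem_filter.1 (mem_inside_of hcl hxQ hf hxf)).2
    rcases exch5 hE h3 hF hQ hf hfQ hxf hx1 hhF hxh hw with ⟨u, v, R, hM⟩ | ⟨_, _, _, h4 | h4⟩
    · exact ⟨F, fun _ _ => Iff.rfl, hF, hQ, Or.inr (Or.inr
        ⟨f, hf, hfQ, x, hxf, hx1, hxZ, h, mem_univ _, hhF, u, v, R, hM⟩)⟩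
    · exact ⟨F, fun _ _ => Iff.rfl, hF, hQ, Or.inl ⟨f, hf, hfQ, h, mem_univ _, hhF, h4⟩⟩
    · -- a Pasch exit
      by_cases hZp : ∀ y ∈ Q, deg s F y = 1 → y ∉ Z
      · exact caseB2 hE h3 h5 hF hQ hhF h4 hZp
      · push Not at hZp
        obtain ⟨q, hqQ, hq1, hqZ⟩ := hZp
        obtain ⟨fq, hfq, hqfq⟩ := exists_of_deg (le_of_eq hq1.symm)
        have hfqi := mem_inside_of hcl hqQ hfq hqfq
        have hcard := card_private h3 hF hQ
        obtain ⟨e, he, hne⟩ := exists_mem_ne (s := inside s F Q) (by omega) fq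
        have he' := mem_filter.1 he
        obtain ⟨h6, h7, h8, h9, h10⟩ := switch hE h3 hF hQ hhF h4 he'.1 he'.2
        obtain ⟨F', a1, a2, a3, a4⟩ := caseB2 (Z := Z) hE h3 h5 h6 h7 h9 h10 (by
          intro y hyQ hy1 hyZ
          have hyq : y = q := card_le_one.1 hZ y hyZ q hqZ
          have hye := (pasch_line h6 h7 h9 h10 y).2 ⟨hyQ, hy1⟩
          rw [hyq] at hye
          exact hne (uniq_of_deg hq1 he'.1 hye hfq hqfq))
        exact ⟨F', SameOff.trans' h8 a1, a2, a3, a4⟩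

end A

end Pool.Agent.Helper29_CF.H21
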